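import Pool.Agent.Y472.G.Defs
import Pool.Agent.Y833.CB.Mn1

/-!
# CB3-G-FAZ: bounds of the traces

`faz : Pool.Agent.Y472.S_FAZ`.
-/

set_option autoImplicit false

namespace Pool.Agent.Y280.CG

open Finset Filter Topology Metric MeasureTheory
open Pool.Agent.W711.HT Pool.Agent.Y472
open Pool.Agent.Y833.CB (Tf_diff Tf_congr wE_diff cauchy wE_bd)
open scoped Real

/-- a bound of `bet` -/
theorem bet_le : bet ≤ 157 / 200 := by
  have hπ := Real.pi_pos
  have hπ1 := Real.pi_gt_d2
  have hπ2 := Real.pi_lt_d2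
  have hI1 : IntervalIntegrable (fun t : ℝ => Real.log 2 + Real.log (Real.sin t)) volume 0 (π / 4) :=
    intervalIntegrable_const.add intervalIntegrable_log_sin
  have hI2 : IntervalIntegrable (fun t : ℝ => Real.log (42 / 25) + Real.log t) volume 0 (π / 4) :=
    intervalIntegrable_const.add intervalIntegral.intervalIntegrable_log'
  have h1 : (∫ t in (0:ℝ)..(π / 4), Real.log (2 * Real.sin t)) =
      ∫ t in (0:ℝ)..(π / 4), (Real.log 2 + Real.log (Real.sin t)) := by
    refine intervalIntegral.integral_congr_ae (Filter.Eventually.of_forall fun t ht => ?_)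
    rw [Set.uIoc_of_le (by positivity)] at ht
    have hs : 0 < Real.sin t := Real.sin_pos_of_pos_of_lt_pi ht.1 (by linarith [ht.2])
    exact Real.log_mul two_ne_zero hs.ne'
  have h2 : (∫ t in (0:ℝ)..(π / 4), (Real.log (42 / 25) + Real.log t)) ≤
      ∫ t in (0:ℝ)..(π / 4), (Real.log 2 + Real.log (Real.sin t)) := by
    refine intervalIntegral.integral_mono_on_of_le_Ioo (by positivity) hI2 hI1 fun t ht => ?_
    have ht0 : 0 < t := ht.1
    have ht1 : t ≤ 4 / 5 := by linarith [ht.2]
    have hs := Real.sin_gt_sub_cube ht0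
    have hs0 : 0 < Real.sin t := Real.sin_pos_of_pos_of_lt_pi ht.1 (by linarith [ht.2])
    rw [← Real.log_mul (by norm_num) ht0.ne', ← Real.log_mul two_ne_zero hs0.ne']
    refine Real.log_le_log (by positivity) ?_
    have h3 : t ^ 3 ≤ 16 / 25 * t := by
      have : t ^ 3 = t ^ 2 * t := by ring
      rw [this]
      refine mul_le_mul_of_nonneg_right ?_ ht0.le
      nlinarith
    linarith
  have h3 : (∫ t in (0:ℝ)..(π / 4), (Real.log (42 / 25) + Real.log t)) =
      π / 4 * (Real.log (42 / 25) + Real.log (π / 4) - 1) := by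
    rw [intervalIntegral.integral_add intervalIntegrable_const
      intervalIntegral.intervalIntegrable_log', intervalIntegral.integral_const, integral_log]
    simp
    ring
  have h4 : (43 / 200 : ℝ) ≤ Real.log (42 / 25) + Real.log (π / 4) := by
    rw [← Real.log_mul (by norm_num) (by positivity)]
    have h5 : 0 < 42 / 25 * (π / 4) := by positivity
    refine le_trans ?_ (Real.one_sub_inv_le_log_of_pos h5)
    have h6 : (42 / 25 * (π / 4))⁻¹ ≤ 157 / 200 := by
      rw [inv_le_comm₀ h5 (by norm_num)]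
      linarith
    linarith
  have h5 : π / 4 * (43 / 200 - 1) ≤ ∫ t in (0:ℝ)..(π / 4), Real.log (2 * Real.sin t) := by
    rw [h1]
    refine le_trans ?_ h2
    rw [h3]
    refine mul_le_mul_of_nonneg_left ?_ (by positivity)
    linarith
  unfold bet
  have h6 : (4 / π) * (π / 4 * (43 / 200 - 1)) ≤
      (4 / π) * ∫ t in (0:ℝ)..(π / 4), Real.log (2 * Real.sin t) :=
    mul_le_mul_of_nonneg_left h5 (by positivity)
  have h7 : (4 / π) * (π / 4 * (43 / 200 - 1)) = -(157 / 200 : ℝ) := by
    field_simp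
    norm_num
  rw [h7] at h6
  linarith

/-- polynomials are bounded by exponentials -/
theorem ev_pow (C : ℝ) (p : ℕ) {ε : ℝ} (hε : 0 < ε) :
    ∀ᶠ N : ℕ in atTop, C * (N : ℝ) ^ p ≤ Real.exp (N * ε) := by
  have h := (isLittleO_pow_exp_pos_mul_atTop (k := p) hε).def
    (show (0:ℝ) < 1 / (|C| + 1) by positivity)
  have h2 := tendsto_natCast_atTop_atTop (R := ℝ) |>.eventually h
  filter_upwards [h2] with N hN
  rw [Real.norm_of_nonneg (by positivity), Real.norm_of_nonneg (Real.exp_pos _).le] at hN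
  have h3 : C * (N : ℝ) ^ p ≤ (|C| + 1) * (N : ℝ) ^ p := by
    refine mul_le_mul_of_nonneg_right ?_ (by positivity)
    linarith [le_abs_self C]
  refine h3.trans ?_
  calc (|C| + 1) * (N : ℝ) ^ p ≤ (|C| + 1) * (1 / (|C| + 1) * Real.exp (ε * N)) :=
        mul_le_mul_of_nonneg_left hN (by positivity)
    _ = Real.exp (N * ε) := by
        rw [mul_comm (N : ℝ) ε]
        field_simp

theorem ph_ne {N : ℕ} (hN : 2 ≤ N) {χ : ℂ} (hg : Gap N χ) {t : ℕ} (h1 : 1 ≤ t) (h2 : t < N) :
    Ph N χ t ≠ 0 := by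
  have hNR : (0 : ℝ) < N := by exact_mod_cast (show 0 < N by omega)
  have hNC : (N : ℂ) ≠ 0 := by exact_mod_cast hNR.ne'
  have hπ := Real.pi_pos
  have hN1 : 0 < 1 / (N : ℝ) := by positivity
  unfold Ph
  refine mul_ne_zero ?_ ?_
  · intro h
    have hc : Real.cos (2 * π * t / N) = 1 := by
      have h3 : ((2 - 2 * Real.cos (2 * π * t / N) : ℝ) : ℂ) = 0 := by
        push_cast at h ⊢
        exact h
      have h4 : 2 - 2 * Real.cos (2 * π * t / N) = 0 := by exact_mod_cast h3
      linarith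
    obtain ⟨n, hn⟩ := (Real.cos_eq_one_iff _).1 hc
    have h5 : (n : ℝ) * N = t := by
      field_simp at hn
      exact hn
    have h6 : n * (N : ℤ) = t := by exact_mod_cast h5
    have h7 : 0 < n := by
      by_contra hcon
      have : n * (N : ℤ) ≤ 0 := mul_nonpos_of_nonpos_of_nonneg (not_lt.1 hcon) (by positivity)
      omega
    have h8 : (N : ℤ) ≤ n * (N : ℤ) := le_mul_of_one_le_left (by positivity) (by omega)
    omega
  · intro h
    have hc : Complex.cos χ = Complex.cos (2 * π * t / N : ℂ) := by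
      have h3 : (2 : ℂ) * Complex.cos χ = 2 * Complex.cos (2 * π * t / N : ℂ) := by
        have h4 := sub_eq_zero.1 h
        rw [h4]
        push_cast
        rfl
      exact mul_left_cancel₀ two_ne_zero h3
    obtain ⟨k, hk⟩ := Complex.cos_eq_cos_iff.1 hc
    rcases hk with hk | hk
    · have h3 := hg (t - k * N)
      have h4 : χ - 2 * π * ((t - k * N : ℤ) : ℂ) / N = 0 := by
        push_cast
        field_simp at hk ⊢
        linear_combination (-1 : ℂ) * hk
      rw [h4, norm_zero] at h3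
      linarith
    · have h3 := hg (k * N - t)
      have h4 : χ - 2 * π * ((k * N - t : ℤ) : ℂ) / N = 0 := by
        push_cast
        field_simp at hk ⊢
        linear_combination hk
      rw [h4, norm_zero] at h3
      linarith

theorem gap_refl {N : ℕ} (hN : 0 < N) {χ : ℂ} (hg : Gap N χ) : Gap N (2 * π - χ) := by
  intro t
  have hNC : (N : ℂ) ≠ 0 := by exact_mod_cast hN.ne'
  have h := hg (N - t)
  have e : (2 * π - χ) - 2 * π * t / N = -(χ - 2 * π * ((N - t : ℤ) : ℂ) / N) := by
    push_cast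
    field_simp
    ring
  rw [e, norm_neg]
  exact h

theorem gap_sphere {N : ℕ} (hN : 0 < N) {p : ℕ} {w : ℂ}
    (h : ‖w - 2 * π * p / N‖ = 1 / (N : ℝ)) : Gap N w := by
  intro t
  have hNR : (0 : ℝ) < N := by exact_mod_cast hN
  have hNC : (N : ℂ) ≠ 0 := by exact_mod_cast hN.ne'
  have hπ := Real.pi_gt_three
  by_cases ht : t = p
  · rw [ht, Int.cast_natCast, h]
  · have h1 : (1 : ℝ) ≤ |((t - p : ℤ) : ℝ)| := by
      have : (1 : ℤ) ≤ |t - p| := Int.one_le_abs (sub_ne_zero.2 ht)
      exact_mod_cast this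
    have h2 : ‖(2 * π * t / N : ℂ) - 2 * π * p / N‖ = 2 * π * |((t - p : ℤ) : ℝ)| / N := by
      have : (2 * π * t / N : ℂ) - 2 * π * p / N = ((2 * π * ((t - p : ℤ) : ℝ) / N : ℝ) : ℂ) := by
        push_cast
        ring
      rw [this, Complex.norm_real, Real.norm_eq_abs, abs_div, abs_mul, abs_of_pos hNR,
        abs_of_pos (by positivity : (0 : ℝ) < 2 * π)]
    have h3 : 2 / (N : ℝ) ≤ ‖(2 * π * t / N : ℂ) - 2 * π * p / N‖ := by
      rw [h2]
      refine div_le_div_of_nonneg_right ?_ hNR.le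
      nlinarith
    have h4 : ‖(2 * π * t / N : ℂ) - 2 * π * p / N‖ ≤
        ‖w - 2 * π * p / N‖ + ‖w - 2 * π * t / N‖ := by
      have e : (2 * π * t / N : ℂ) - 2 * π * p / N = (w - 2 * π * p / N) - (w - 2 * π * t / N) := by
        ring
      rw [e]
      exact norm_sub_le _ _
    rw [h] at h4
    have h5 : 2 / (N : ℝ) = 1 / N + 1 / N := by ring
    linarith

/-- bound of the traces by exponentials -/
theorem exp_bd {N k : ℕ} {C A P e ε : ℝ} (hC : C * P ≤ Real.exp (N * (ε / 2)))
    (he : 2 * k * e = ε / 2) :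
    C * P * Real.exp (N * (A + e)) ^ (2 * k) ≤ Real.exp (N * (2 * k * A + ε)) := by
  calc C * P * Real.exp (N * (A + e)) ^ (2 * k) ≤
        Real.exp (N * (ε / 2)) * Real.exp (N * (A + e)) ^ (2 * k) :=
        mul_le_mul_of_nonneg_right hC (by positivity)
    _ = Real.exp (N * (2 * k * A + ε)) := by
        rw [← Real.exp_nat_mul, ← Real.exp_add]
        congr 1
        push_cast
        linear_combination (N : ℝ) * he

theorem faz : S_FAZ := by
  intro hKB hKR hKA hTFB hKFF hKF hS0 ls m hls ε hε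
  have hπ := Real.pi_pos
  have hπ1 := Real.pi_gt_d2
  have hπ2 := Real.pi_lt_d2
  set k := ls.length with hk
  have hk1 : 1 ≤ k := by
    rw [hk]
    exact List.length_pos_iff.2 hls
  have hkR : (1 : ℝ) ≤ k := by exact_mod_cast hk1
  obtain ⟨C, hC, HT⟩ := hTFB hKFF hKF ls hls
  rw [← hk] at HT
  set e : ℝ := ε / (4 * k) with he
  have he0 : 0 < e := by positivity
  have he1 : 2 * k * e = ε / 2 := by
    rw [he]
    field_simp
    norm_num
  obtain ⟨τ1, hτ1, HA⟩ := hKA e he0
  obtain ⟨τ2, hτ2, HR⟩ := hKR e he0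
  obtain ⟨ρs, c₂, hρ0, hρ1, hc₂, HB⟩ := hKB
  obtain ⟨τ3, hτ3, HB⟩ := HB e he0
  have hτ : ∀ {τ : ℝ}, 0 < τ → ∀ᶠ N : ℕ in atTop, 1 / (N : ℝ) ≤ τ := fun h => by
    have := tendsto_one_div_atTop_nhds_zero_nat (𝕜 := ℝ)
    exact this.eventually (eventually_le_nhds h)
  filter_upwards [HA, HR, HB, hτ hτ1, hτ hτ2, hτ hτ3, eventually_ge_atTop 600,
    ev_pow (Real.exp (1 + 2 * |(m : ℝ)|) * C) (4 * k + 1) (half_pos hε),
    ev_pow C (4 * k) (half_pos hε)] with N HA HR HB hN1 hN2 hN3 hN4 hP1 hP2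
  have hN0 : 0 < N := by omega
  have hNR : (0 : ℝ) < N := by exact_mod_cast hN0
  have hNR6 : (600 : ℝ) ≤ N := by exact_mod_cast hN4
  have hN1R : 1 / (N : ℝ) ≤ 1 / 600 := one_div_le_one_div_of_le (by norm_num) hNR6
  have hinv : 0 < 1 / (N : ℝ) := by positivity
  constructor
  · -- (1)
    intro p hp1 hp2
    -- bound of `Tf`
    have T0 : ∀ w : ℂ, 2 * π / 3 - 1 / 100 ≤ |w.re| → |w.re| ≤ π → |w.im| ≤ 1 / N → Gap N w →
        ‖Tf N ls w‖ ≤ C * (N : ℝ) ^ (4 * k) * Real.exp (N * (157 / 200 + e)) ^ (2 * k) := by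
      intro w h1 h2 h3 h4
      refine (HT N w (Real.exp (N * (157 / 200 + e))) (Real.exp (N * (bet + e))) (by omega)
        (fun t ht1 ht2 => ph_ne (by omega) h4 ht1 ht2) (Real.exp_pos _).le
        (Real.exp_le_exp.2 (mul_le_mul_of_nonneg_left (by linarith [bet_le]) hNR.le)) ?_).1
      intro ψ ψ' a1 a2 a3 a4
      exact ⟨HA ψ ψ' w a1 (a2.trans hN1) a3 (a4.trans hN1) h1 h2 (h3.trans hN1),
        HR ψ ψ' w a1 (a2.trans hN2) a3 (a4.trans hN2) h2 (by
          refine h3.trans (hN1R.trans (by norm_num))) h4⟩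
    have T1 : ∀ w : ℂ, 2 * π / 3 - 1 / 100 ≤ w.re → w.re ≤ π + 1 / N → |w.im| ≤ 1 / N → Gap N w →
        ‖Tf N ls w‖ ≤ C * (N : ℝ) ^ (4 * k) * Real.exp (N * (157 / 200 + e)) ^ (2 * k) := by
      intro w h1 h2 h3 h4
      by_cases hw : w.re ≤ π
      · exact T0 w (by rwa [abs_of_nonneg (by linarith)]) (by rwa [abs_of_nonneg (by linarith)]) h3 h4
      · have hcos : Complex.cos w = Complex.cos (2 * π - w) := by
          rw [Complex.cos_two_pi_sub]
        have hre : (2 * π - w : ℂ).re = 2 * π - w.re := by simp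
        have him : (2 * π - w : ℂ).im = -w.im := by simp
        rw [not_le] at hw
        rw [Tf_congr N ls hcos]
        refine T0 _ ?_ ?_ ?_ (gap_refl hN0 h4)
        · rw [hre, abs_of_nonneg (by linarith)]
          linarith
        · rw [hre, abs_of_nonneg (by linarith)]
          linarith
        · rw [him, abs_neg]
          exact h3
    -- the circle
    have hc : (2 * π * p / N : ℂ) = ((2 * π * p / N : ℝ) : ℂ) := by
      push_cast
      rfl
    have hp3 : (N : ℝ) - 2 ≤ 3 * p := by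
      have : N ≤ 3 * p + 2 := by omega
      have : (N : ℝ) ≤ 3 * p + 2 := by exact_mod_cast this
      linarith
    have hp4 : (2 : ℝ) * p ≤ N := by exact_mod_cast hp2
    have hc1 : 2 * π / 3 - 4 * π / 3 * (1 / N) ≤ 2 * π * p / N := by
      rw [le_div_iff₀ hNR]
      have : (2 * π / 3 - 4 * π / 3 * (1 / N)) * N = 2 * π / 3 * (N - 2) := by
        field_simp
        ring
      rw [this]
      have := mul_le_mul_of_nonneg_left hp3 (by positivity : (0 : ℝ) ≤ 2 * π / 3)
      linarith
    have hc2 : 2 * π * p / N ≤ π := by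
      rw [div_le_iff₀ hNR]
      have := mul_le_mul_of_nonneg_left hp4 hπ.le
      linarith
    have key : ∀ w : ℂ, ‖w - 2 * π * p / N‖ = 1 / (N : ℝ) →
        ‖wE N m w * Tf N ls w‖ ≤ Real.exp (1 + 2 * |(m : ℝ)|) *
          (C * (N : ℝ) ^ (4 * k) * Real.exp (N * (157 / 200 + e)) ^ (2 * k)) := by
      intro w hw
      have hg := gap_sphere hN0 hw
      have hre : |w.re - 2 * π * p / N| ≤ 1 / N := by
        have := Complex.abs_re_le_norm (w - 2 * π * p / N)
        rw [hw, hc, Complex.sub_re, Complex.ofReal_re] at this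
        exact this
      have him : |w.im| ≤ 1 / N := by
        have := Complex.abs_im_le_norm (w - 2 * π * p / N)
        rw [hw, hc, Complex.sub_im, Complex.ofReal_im, sub_zero] at this
        exact this
      rw [abs_le] at hre
      have hlo : 2 * π / 3 - 1 / 100 ≤ w.re := by
        have : 4 * π / 3 * (1 / N) ≤ 4 * π / 3 * (1 / 600) :=
          mul_le_mul_of_nonneg_left hN1R (by positivity)
        linarith [hre.1]
      have hhi : w.re ≤ π + 1 / N := by linarith [hre.2]
      rw [norm_mul]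
      refine mul_le_mul (wE_bd N hN0 m w ?_ him) (T1 w hlo hhi him hg) (norm_nonneg _)
        (Real.exp_pos _).le
      rw [abs_of_nonneg (by linarith)]
      linarith
    have h1 := cauchy ((wE_diff N m).mul (Tf_diff N ls)) (2 * π * p / N) hinv key
    have h2 : (fun χ => wE N m χ * Tf N ls χ) = (wE N m * Tf N ls) := rfl
    rw [h2]
    refine h1.trans ?_
    have h3 : Real.exp (1 + 2 * |(m : ℝ)|) *
          (C * (N : ℝ) ^ (4 * k) * Real.exp (N * (157 / 200 + e)) ^ (2 * k)) / (1 / N) =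
        Real.exp (1 + 2 * |(m : ℝ)|) * C * (N : ℝ) ^ (4 * k + 1) *
          Real.exp (N * (157 / 200 + e)) ^ (2 * k) := by
      rw [div_div_eq_mul_div, div_one, pow_succ]
      ring
    rw [h3]
    refine (exp_bd hP1 he1).trans (le_of_eq ?_)
    congr 1
    ring
  · -- (2)
    intro χ h1 h2 h4
    set B0 : ℝ := max (s0 χ).re bet with hB0
    have hχπ : |χ.re| ≤ π := by linarith
    have HH := HT N χ (Real.exp (N * (B0 + e))) (Real.exp (N * (bet + e))) (by omega)
        (fun t ht1 ht2 => ph_ne (by omega) h4 ht1 ht2) (Real.exp_pos _).le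
        (Real.exp_le_exp.2 (mul_le_mul_of_nonneg_left (by linarith [le_max_right (s0 χ).re bet])
          hNR.le)) (by
      intro ψ ψ' a1 a2 a3 a4
      refine ⟨(HB ψ ψ' χ a1 (a2.trans hN3) a3 (a4.trans hN3) h1 h2).trans (Real.exp_le_exp.2
        (mul_le_mul_of_nonneg_left ?_ hNR.le)), HR ψ ψ' χ a1 (a2.trans hN2) a3 (a4.trans hN2) hχπ
          h2 h4⟩
      have b1 : 0 ≤ c₂ * min |ψ.re| ρs ^ 2 := by positivity
      have b2 : 0 ≤ c₂ * min |ψ'.re| ρs ^ 2 := by positivity
      linarith [le_max_left (s0 χ).re bet])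
    refine ⟨HH.1.trans (exp_bd hP2 he1), HH.2.trans ?_⟩
    calc C * (N : ℝ) ^ (4 * k) * Real.exp (N * (B0 + e)) ^ (2 * k - 1) * Real.exp (N * (bet + e)) ≤
          Real.exp (N * (ε / 2)) * Real.exp (N * (B0 + e)) ^ (2 * k - 1) *
            Real.exp (N * (bet + e)) := by gcongr
      _ = Real.exp (N * ((2 * k - 1) * B0 + bet + ε)) := by
          rw [← Real.exp_nat_mul, ← Real.exp_add, ← Real.exp_add]
          congr 1
          have : ((2 * k - 1 : ℕ) : ℝ) = 2 * k - 1 := by
            rw [Nat.cast_sub (by omega)]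
            push_cast
            ring
          rw [this]
          linear_combination (N : ℝ) * he1

end Pool.Agent.Y280.CG
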